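import Pool.Agent.H95.FI.Defs

set_option autoImplicit false

open MvPolynomial

namespace H88.FI

open H95.FG H95.FI

theorem dt_adj {n : ℕ} (Z : Matrix (Fin n) (Fin n) ℂ) (a b : Fin n → ℂ) :
    dt (Z.mulVec a) (Z.adjugate.transpose.mulVec b) = Z.det * dt a b := by
  have h : ∀ x y : Fin n → ℂ, dt x y = dotProduct x y := fun _ _ => rfl
  rw [h, h, Matrix.mulVec_transpose, dotProduct_comm, ← Matrix.dotProduct_mulVec,
    Matrix.mulVec_mulVec, Matrix.adjugate_mul, Matrix.smul_mulVec, Matrix.one_mulVec,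
    dotProduct_smul, dotProduct_comm b a, smul_eq_mul]

theorem dt_supp {n : ℕ} (Z : Matrix (Fin n) (Fin n) ℂ) (a b : Fin n → ℂ)
    (h : ∀ k, a k = 0 ∨ b k = 0) :
    dt (Z.mulVec a) (Z.adjugate.transpose.mulVec b) = 0 := by
  rw [dt_adj]
  have : dt a b = 0 := by
    unfold dt
    refine Finset.sum_eq_zero fun k _ => ?_
    rcases h k with h | h <;> rw [h] <;> simp
  rw [this, mul_zero]

theorem det_poly {n k : ℕ} (A : Qn n) (Z1 Z2 : Matrix (Fin n) (Fin n) ℂ)
    (c c' : Fin k → Fin n → ℂ) : ∃ D : Polynomial ℂ, ∀ t : ℂ,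
      D.eval t = (VM A (fun i => ((1 - t) • Z1 + t • Z2).mulVec (c i))
        (fun j => ((1 - t) • Z1 + t • Z2).adjugate.transpose.mulVec (c' j))).det := by
  set ZT : Matrix (Fin n) (Fin n) (Polynomial ℂ) :=
    (1 - Polynomial.X : Polynomial ℂ) • Z1.map Polynomial.C +
      (Polynomial.X : Polynomial ℂ) • Z2.map Polynomial.C with hZT
  set zT : Fin k → Fin n → Polynomial ℂ := fun i => ZT.mulVec (fun l => Polynomial.C (c i l))
    with hzT
  set YT : Fin k → Fin n → Polynomial ℂ := fun j =>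
    ZT.adjugate.transpose.mulVec (fun l => Polynomial.C (c' j l)) with hYT
  refine ⟨(Matrix.of fun i j => MvPolynomial.aeval (Sum.elim (zT i) (YT j)) A).det, fun t => ?_⟩
  have hmap : ZT.map (Polynomial.evalRingHom t) = (1 - t) • Z1 + t • Z2 := by
    ext i j
    simp [hZT]
    ring
  have hadj : ZT.adjugate.transpose.map (Polynomial.evalRingHom t) =
      ((1 - t) • Z1 + t • Z2).adjugate.transpose := by
    have h1 := RingHom.map_adjugate (Polynomial.evalRingHom t) ZT
    rw [RingHom.mapMatrix_apply, RingHom.mapMatrix_apply, hmap] at h1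
    rw [← h1]
    rfl
  have hz : ∀ i l, Polynomial.evalRingHom t (zT i l) =
      ((1 - t) • Z1 + t • Z2).mulVec (c i) l := by
    intro i l
    rw [hzT, RingHom.map_mulVec, hmap]
    congr 1
    ext x
    simp
  have hY : ∀ j l, Polynomial.evalRingHom t (YT j l) =
      ((1 - t) • Z1 + t • Z2).adjugate.transpose.mulVec (c' j) l := by
    intro j l
    rw [hYT, RingHom.map_mulVec, hadj]
    congr 1
    ext x
    simp
  rw [← Polynomial.coe_evalRingHom, RingHom.map_det]
  congr 1
  ext i j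
  rw [RingHom.mapMatrix_apply, Matrix.map_apply, Matrix.of_apply, MvPolynomial.map_aeval]
  have hid : (Polynomial.evalRingHom t).comp (algebraMap ℂ (Polynomial ℂ)) = RingHom.id ℂ := by
    ext x
    simp
  rw [hid]
  simp only [VM, AA, Matrix.of_apply]
  rw [MvPolynomial.coe_eval₂Hom, ← MvPolynomial.eval₂_id]
  congr 1
  funext x
  rcases x with x | x
  · exact hz i x
  · exact hY j x

/-- GEN: two nonzero determinants do not vanish at a common point. -/
theorem t_GEN (hA : S_ADA) (hB : S_ADB) : S_GEN := by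
  intro n s A hn hBig h z Y
  by_contra hne
  obtain ⟨z1, Y1, hO, hd1⟩ := hBig
  obtain ⟨Z1, c0, c0', -, hz1, hY1, hs1, hs1'⟩ := hA n s z1 Y1 (by omega) hO
  obtain ⟨Z2, c, c', -, hz2, hY2, hs2, hs2'⟩ := hB n s z Y hn
  obtain ⟨D1, hD1⟩ := det_poly A Z1 Z2 c0 c0'
  obtain ⟨D2, hD2⟩ := det_poly A Z1 Z2 c c'
  have h1 : D1 ≠ 0 := by
    intro h0
    have h3 := hD1 0
    rw [h0, Polynomial.eval_zero] at h3
    apply hd1
    rw [h3]
    congr 2
    · funext i; rw [hz1 i]; simp
    · funext j; rw [hY1 j]; simp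
  have h2 : D2 ≠ 0 := by
    intro h0
    have h3 := hD2 1
    rw [h0, Polynomial.eval_zero] at h3
    apply hne
    rw [h3]
    congr 2
    · funext i; rw [hz2 i]; simp
    · funext j; rw [hY2 j]; simp
  obtain ⟨t, ht⟩ : ∃ t : ℂ, (D1 * D2).eval t ≠ 0 := by
    by_contra hcon
    push Not at hcon
    exact mul_ne_zero h1 h2 (Polynomial.funext fun t => by rw [hcon t, Polynomial.eval_zero])
  rw [Polynomial.eval_mul] at ht
  have ht1 := left_ne_zero_of_mul ht
  have ht2 := right_ne_zero_of_mul ht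
  rw [hD1 t] at ht1
  rw [hD2 t] at ht2
  refine ht2 (h _ _ ?_ ht1 _ _ ?_ ?_)
  · intro i j
    refine dt_supp _ _ _ fun k => ?_
    by_cases hk : k.val < s
    · exact Or.inr (hs1' j k (Or.inl hk))
    · exact Or.inl (hs1 i k (by omega))
  · intro i j
    refine dt_supp _ _ _ fun k => ?_
    by_cases hk : k.val < 2 * s
    · exact Or.inl (hs2 i k hk)
    · exact Or.inr (hs1' j k (Or.inr (by omega)))
  · intro i j
    refine dt_supp _ _ _ fun k => ?_
    by_cases hk : k.val < 2 * s
    · exact Or.inr (hs2' j k hk)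
    · exact Or.inl (hs1 i k (by omega))

end H88.FI
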